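import Mathlib
import Pool.Agent.H24.PlotkinDefs
import Pool.Agent.H24.ActVar

set_option autoImplicit false
open FirstOrder FirstOrder.Language
open Pool.Agent.H24 Pool.Agent.H24.Plotkin

namespace Pool.Agent.Results.MP_9f131e_lc.NotConj

theorem result :
    ¬ ∀ (L : FirstOrder.Language.{0, 0}), (∀ n, IsEmpty (L.Relations n)) →
      ∀ (E : Identities L) (n₁ n₂ : ℕ) (H₁ H₂ : Type) [L.Structure H₁] [L.Structure H₂]
        (ι₁ : Fin n₁ → H₁) (ι₂ : Fin n₂ → H₂), IsFree E H₁ ι₁ → IsFree E H₂ ι₂ →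
        Isotypic L H₁ H₂ → ∀ (m : ℕ) (μ : Fin m → H₁) (ν : Fin m → H₂), SameType L μ ν →
        ∃ σ : L.Equiv H₁ H₂, ⇑σ ∘ μ = ν := by
  intro h
  obtain ⟨σ, hσ⟩ := h ActVar.LM ActVar.LM_rel ActVar.E 1 1 (ActVar.W 1) (ActVar.W 1)
    (ActVar.gen 1) (ActVar.gen 1) ⟨ActVar.W_sat 1, ActVar.W_free 1⟩
    ⟨ActVar.W_sat 1, ActVar.W_free 1⟩
    (fun m => ⟨fun a => ⟨a, fun _ => Iff.rfl⟩, fun a => ⟨a, fun _ => Iff.rfl⟩⟩)
    1 ActVar.bb ActVar.aa (fun φ => (ActVar.same_type φ).symm)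
  exact ActVar.not_conj σ hσ

end Pool.Agent.Results.MP_9f131e_lc.NotConj
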